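import Pool.Agent.Q37.SecGraph.Prods

/-!
MP_6429ad_ag, Q1, negated form: the ideals of secant varieties of graph curves are not always
generated by products of linear forms.
-/

namespace Pool.Agent.Results.MP_6429ad_ag.ThetaGraph

open Q37.SecGraph

universe u

/-- For every algebraically closed field of characteristic zero there are a graph as in the
problem, an admissible labelling and `k ≥ 1` such that no set of products of linear forms
generates the ideal of the secant variety `Σ_k` of the graph curve. -/
theorem result (K : Type u) [Field K] [IsAlgClosed K] [CharZero K] :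
    ∃ (d N : ℕ) (G : SimpleGraph (Fin d)) (lab : Sym2 (Fin d) → Label N) (k : ℕ),
      IsAdmissible G ∧ IsLabelling G lab ∧ 1 ≤ k ∧
      ¬ ∃ P : Set (MvPolynomial (Fin N) K), (∀ f ∈ P, IsProductOfLinearForms f) ∧
        Ideal.span P = secantIdeal (line K G lab) k :=
  ⟨11, 10, theta, thetaLab, 3, theta_admissible, theta_labelling, by norm_num, not_generated K⟩

end Pool.Agent.Results.MP_6429ad_ag.ThetaGraph
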